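import Pool.Agent.Lib.MP_098ea1_pr.BR.Main

/-!
# The topological Hausdorff dimension of the range of three-dimensional Brownian motion is smaller than 2

`IsBM3 W P`: the three coordinates of `W` are independent one-dimensional Brownian motions (Mathlib's
`IsBrownianReal`). `dimTH`: the topological Hausdorff dimension of a metric space.
-/

set_option autoImplicit false

open MeasureTheory ProbabilityTheory Set
open scoped NNReal ENNReal
open Pool.Agent.Lib.MP_098ea1_pr.BR

namespace Pool.Agent.Results.MP_098ea1_pr.RangeDimension

universe u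

/-- There is `δ > 0` such that the range of every three-dimensional Brownian motion, with the Euclidean metric,
almost surely has topological Hausdorff dimension at most `2 - δ`, has a basis of relatively open sets whose
boundaries have Hausdorff dimension at most `1 - δ`, and is the union of a totally disconnected set and a set of
Hausdorff dimension at most `1 - δ`. -/
theorem result : ∃ δ : ℝ, 0 < δ ∧ δ ≤ 1 ∧ ∀ {Ω : Type u} [MeasurableSpace Ω] (P : Measure Ω)
    (W : ℝ≥0 → Ω → EuclideanSpace ℝ (Fin 3)), IsBM3 W P → ∀ᵐ ω ∂P,
      dimTH (Set.range (fun t => W t ω)) ≤ ((2 - δ : ℝ) : EReal) ∧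
      (∃ 𝓑 : Set (Set (Set.range (fun t => W t ω))), TopologicalSpace.IsTopologicalBasis 𝓑 ∧
        ∀ U ∈ 𝓑, dimH (frontier U) ≤ ENNReal.ofReal (1 - δ)) ∧
      ∃ T S : Set (EuclideanSpace ℝ (Fin 3)), T ∪ S = Set.range (fun t => W t ω) ∧ IsTotallyDisconnected T ∧
        dimH S ≤ ENNReal.ofReal (1 - δ) :=
  main

end Pool.Agent.Results.MP_098ea1_pr.RangeDimension
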